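import Pool.Agent.helper88.GR.Spec
import Pool.Agent.helper69.PP.MI

/-!
# gr:ENG (helper78): the energy inequality
-/

set_option autoImplicit false

open Complex Metric Set Filter Topology MeasureTheory
open MPS (om)
open PPS (pre TT fd)
open XPS (Df er dens tau)

noncomputable section

namespace GR

theorem ENG_sum (s : Multiset ℂ) (f : Polynomial ℂ) (q : ℂ → ℂ) :
    ENNReal.ofReal (s.map fun y => ‖q y‖ / ‖fd f y‖ ^ 2).sum ≤
      (s.map fun y => ENNReal.ofReal ‖q y‖ / ENNReal.ofReal (‖fd f y‖ ^ 2)).sum := by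
  induction s using Multiset.induction_on with
  | empty => simp
  | cons a s ih =>
    simp only [Multiset.map_cons, Multiset.sum_cons]
    refine ENNReal.ofReal_add_le.trans (add_le_add ?_ ih)
    by_cases h : ‖fd f a‖ ^ 2 = 0
    · rw [h, div_zero, ENNReal.ofReal_zero]
      exact zero_le
    · have h0 : 0 < ‖fd f a‖ ^ 2 := lt_of_le_of_ne (by positivity) (Ne.symm h)
      rw [ENNReal.ofReal_div_of_pos h0]

theorem ENG_nonneg (s : Multiset ℂ) (f : Polynomial ℂ) (q : ℂ → ℂ) :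
    0 ≤ (s.map fun y => ‖q y‖ / ‖fd f y‖ ^ 2).sum := by
  apply Multiset.sum_nonneg
  intro x hx
  obtain ⟨y, -, rfl⟩ := Multiset.mem_map.1 hx
  positivity

theorem ENG (hM : PPS.MCV_stmt) : ENG_stmt := by
  intro n c b ε hn hc hb hfin hε her
  have hdeg : 1 ≤ (fp n c).natDegree := by
    unfold fp
    rw [Polynomial.natDegree_X_pow_add_C]
    omega
  have hev : ∀ z, (fp n c).eval z = z ^ n + c := by
    intro z
    unfold fp
    simp
  have h2 : Measurable (TT (fp n c) b) := PPS.MI_TT (fp n c) hdeg b hb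
  have hA : Measurable fun z => ((pre (fp n c) z).map fun y => ‖b y‖ / ‖fd (fp n c) y‖ ^ 2).sum :=
    (PPS.MS (fp n c) hdeg).2.1 (fun y => ‖b y‖ / ‖fd (fp n c) y‖ ^ 2)
      (hb.norm.div ((PPS.MI_poly (fp n c).derivative).norm.pow_const 2))
  have hDf0 : ∀ z, 0 ≤ Df (fp n c) b z := by
    intro z
    unfold Df
    have h4 := PPS.MI_pos (pre (fp n c) z) (fp n c) b
    unfold TT
    linarith
  have hDfm : Measurable (Df (fp n c) b) := hA.sub h2.norm
  have herm : Measurable (er (fp n c) b) := hb.sub h2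
  refine ⟨hDf0, hDfm, herm, ?_⟩
  -- the preimage of the ball
  have hsub : {y : ℂ | (fp n c).eval y ∈ ball (0 : ℂ) 4} ⊆ ball (0 : ℂ) 4 := by
    intro y hy
    rw [Set.mem_ofPred_eq, hev, mem_ball_zero_iff] at hy
    rw [mem_ball_zero_iff]
    by_contra hcon
    push Not at hcon
    have h5 : ‖y ^ n‖ ≤ ‖y ^ n + c‖ + ‖c‖ := by
      calc ‖y ^ n‖ = ‖(y ^ n + c) - c‖ := by rw [add_sub_cancel_right]
        _ ≤ ‖y ^ n + c‖ + ‖c‖ := norm_sub_le _ _
    rw [norm_pow] at h5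
    have h6 : (4 : ℝ) ^ 2 ≤ ‖y‖ ^ n := by
      calc (4 : ℝ) ^ 2 ≤ 4 ^ n := pow_le_pow_right₀ (by norm_num) hn
        _ ≤ ‖y‖ ^ n := pow_le_pow_left₀ (by norm_num) hcon n
    linarith
  have hT : ∫⁻ z in ball (0 : ℂ) 4, ENNReal.ofReal
      ((pre (fp n c) z).map fun y => ‖b y‖ / ‖fd (fp n c) y‖ ^ 2).sum ≤
      ∫⁻ z in ball (0 : ℂ) 4, ENNReal.ofReal ‖b z‖ := by
    calc ∫⁻ z in ball (0 : ℂ) 4, ENNReal.ofReal
          ((pre (fp n c) z).map fun y => ‖b y‖ / ‖fd (fp n c) y‖ ^ 2).sum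
        ≤ ∫⁻ z in ball (0 : ℂ) 4, ((pre (fp n c) z).map fun y =>
            ENNReal.ofReal ‖b y‖ / ENNReal.ofReal (‖fd (fp n c) y‖ ^ 2)).sum :=
          lintegral_mono fun z => ENG_sum (pre (fp n c) z) (fp n c) b
      _ = ∫⁻ y in {y : ℂ | (fp n c).eval y ∈ ball (0 : ℂ) 4}, ENNReal.ofReal ‖b y‖ :=
          hM (fp n c) hdeg (fun y => ENNReal.ofReal ‖b y‖) _ hb.norm.ennreal_ofReal
            measurableSet_ball
      _ ≤ ∫⁻ z in ball (0 : ℂ) 4, ENNReal.ofReal ‖b z‖ := lintegral_mono_set hsub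
  have hD : ∫⁻ z in ball (0 : ℂ) 4, ENNReal.ofReal (Df (fp n c) b z) ≤ ENNReal.ofReal ε := by
    refine le_trans ?_ her
    have h5 : (∫⁻ z in ball (0 : ℂ) 4, ENNReal.ofReal (Df (fp n c) b z)) +
        ∫⁻ z in ball (0 : ℂ) 4, ENNReal.ofReal ‖b z‖ ≤
        (∫⁻ z in ball (0 : ℂ) 4, ENNReal.ofReal ‖er (fp n c) b z‖) +
        ∫⁻ z in ball (0 : ℂ) 4, ENNReal.ofReal ‖b z‖ := by
      calc (∫⁻ z in ball (0 : ℂ) 4, ENNReal.ofReal (Df (fp n c) b z)) +
            ∫⁻ z in ball (0 : ℂ) 4, ENNReal.ofReal ‖b z‖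
          = ∫⁻ z in ball (0 : ℂ) 4, (ENNReal.ofReal (Df (fp n c) b z) + ENNReal.ofReal ‖b z‖) :=
            (lintegral_add_left hDfm.ennreal_ofReal _).symm
        _ ≤ ∫⁻ z in ball (0 : ℂ) 4, (ENNReal.ofReal ‖er (fp n c) b z‖ + ENNReal.ofReal
              ((pre (fp n c) z).map fun y => ‖b y‖ / ‖fd (fp n c) y‖ ^ 2).sum) := by
            refine lintegral_mono fun z => ?_
            show ENNReal.ofReal (Df (fp n c) b z) + ENNReal.ofReal ‖b z‖ ≤
              ENNReal.ofReal ‖er (fp n c) b z‖ + ENNReal.ofReal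
              ((pre (fp n c) z).map fun y => ‖b y‖ / ‖fd (fp n c) y‖ ^ 2).sum
            rw [← ENNReal.ofReal_add (hDf0 z) (norm_nonneg _),
              ← ENNReal.ofReal_add (norm_nonneg _) (ENG_nonneg _ _ _)]
            apply ENNReal.ofReal_le_ofReal
            have h6 : ‖b z‖ ≤ ‖er (fp n c) b z‖ + ‖TT (fp n c) b z‖ := by
              calc ‖b z‖ = ‖er (fp n c) b z + TT (fp n c) b z‖ := by
                    unfold er
                    rw [sub_add_cancel]
                _ ≤ _ := norm_add_le _ _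
            unfold Df
            linarith
        _ = (∫⁻ z in ball (0 : ℂ) 4, ENNReal.ofReal ‖er (fp n c) b z‖) +
            ∫⁻ z in ball (0 : ℂ) 4, ENNReal.ofReal
              ((pre (fp n c) z).map fun y => ‖b y‖ / ‖fd (fp n c) y‖ ^ 2).sum :=
            lintegral_add_left herm.norm.ennreal_ofReal _
        _ ≤ _ := add_le_add le_rfl hT
    exact (ENNReal.add_le_add_iff_right hfin).1 h5
  unfold Eg
  calc ∫⁻ z in ball (0 : ℂ) 4, ENNReal.ofReal (Df (fp n c) b z + 2 * ‖er (fp n c) b z‖)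
      = ∫⁻ z in ball (0 : ℂ) 4, (ENNReal.ofReal (Df (fp n c) b z) +
          2 * ENNReal.ofReal ‖er (fp n c) b z‖) := by
        refine lintegral_congr fun z => ?_
        rw [ENNReal.ofReal_add (hDf0 z) (by positivity), ENNReal.ofReal_mul (by norm_num)]
        simp
    _ = (∫⁻ z in ball (0 : ℂ) 4, ENNReal.ofReal (Df (fp n c) b z)) +
          2 * ∫⁻ z in ball (0 : ℂ) 4, ENNReal.ofReal ‖er (fp n c) b z‖ := by
        rw [lintegral_add_left hDfm.ennreal_ofReal,
          lintegral_const_mul _ herm.norm.ennreal_ofReal]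
    _ ≤ ENNReal.ofReal ε + 2 * ENNReal.ofReal ε := by gcongr
    _ = ENNReal.ofReal (3 * ε) := by
        rw [ENNReal.ofReal_mul (by norm_num)]
        have : ENNReal.ofReal 3 = 1 + 2 := by norm_num
        rw [this, add_mul, one_mul]

end GR
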